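import Pool.Agent.Helper98.LC.B.EdgeRev
import Pool.Agent.Helper98.LC.DefsC
import Pool.Agent.Helper98.LC.G.Dido
import Pool.Agent.Helper98.LC.G.Reflect

/-!
# LC-C04: the classes satisfy `FaceFacts`; the outer curve

For a class `i` (also `i = o`): `E = {d // d ∈ corners c n i}`, `s` = `es c` (a permutation by `es_bij`), path of `d`:
`k d = 2 * emul c d`, `p d 0 = zl d`, `p d (2 j - 1) = q (edart c d j)`, `p d (2 j) = zl (edart c d j)` for `1 ≤ j ≤ emul c d` (define `p d t` by the
parity of `t`).  The point before `q (edart c d j)` is `zl (edart c d (j-1)) = zr (edart c d j)` (`zr_next`), so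
`plen (p d) (k d) = elen G c d`, `parea (p d) (k d) = ∑ j ∈ Icc 1 m, et (edart c d j)`, `‖p d (k d) - p d 0‖ = echd G c d`,
`pbul (p d) (k d) = A0 * ebul G c d`, `p d (k d) = zl (es c d) = p (s d) 0`.
Total area: `∑ d, parea = ∑ darts of class i, et` (`sum_edges`, `NoLoop`) `= A0 * ar i` for `i ≠ o` (`sum_et_class`) and
`= - A0 * tot` for `i = o` (`sum_et_outer`).
* `faceFacts`: `chord_le`, `dido`, `iso_reflect`, `iso_roof`, `chords_small` (sums over the subtype versus sums over
  `corners c n i`: `Finset.sum_coe_sort`, subsets `R ⊆ corners c n i` by `Finset.subtype`).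
* `outer_curve`: `iso_chords` for `i = o`.  `|- A0 tot - ∑ R, A0 ebul| ≥ A0 (tot - ∑ R, |ebul|)`.
-/

namespace Pool.Agent.Helper98.LC

open Finset Real

variable {ι : Type} [DecidableEq ι]

private theorem ff_A0 : 0 < A0 := by
  unfold A0
  positivity

/-- the path of the edge which starts at the corner `d` -/
private noncomputable def fp (G : Net) (c : V → ι) (d : V × Fin 6) (t : ℕ) : ℂ :=
  if t % 2 = 0 then G.zl (edart c d (t / 2))
  else G.q (edart c d (t / 2 + 1)).1 (edart c d (t / 2 + 1)).2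

private theorem fp_even (G : Net) (c : V → ι) (d : V × Fin 6) (j : ℕ) :
    fp G c d (2 * j) = G.zl (edart c d j) := by
  unfold fp
  rw [if_pos (by omega), show 2 * j / 2 = j by omega]

private theorem fp_odd (G : Net) (c : V → ι) (d : V × Fin 6) (j : ℕ) :
    fp G c d (2 * j + 1) = G.q (edart c d (j + 1)).1 (edart c d (j + 1)).2 := by
  unfold fp
  rw [if_neg (by omega), show (2 * j + 1) / 2 = j by omega]

private theorem ff_succ (c : V → ι) (d : V × Fin 6) (j : ℕ) :
    edart c d (j + 1) = next c (edart c d j) := by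
  unfold edart
  rw [Function.iterate_succ_apply']

private theorem ff_zr (G : Net) (c : V → ι) (d : V × Fin 6) (j : ℕ) :
    G.z (edart c d (j + 1)).1 ((edart c d (j + 1)).2 - 1) = G.zl (edart c d j) := by
  rw [ff_succ]
  exact zr_next G c _

private theorem ff_plen (G : Net) (c : V → ι) (d : V × Fin 6) (m : ℕ) :
    plen (fp G c d) (2 * m) = ∑ j ∈ Icc 1 m, G.w (edart c d j) := by
  induction m with
  | zero => simp [plen]
  | succ m ih =>
    rw [sum_Icc_succ_top (by omega), ← ih]
    unfold plen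
    rw [show 2 * (m + 1) = 2 * m + 1 + 1 by ring, sum_range_succ, sum_range_succ, fp_even,
      fp_odd, show 2 * m + 1 + 1 = 2 * (m + 1) by ring, fp_even]
    unfold Net.w
    rw [ff_zr, add_assoc]
    rfl

private theorem ff_parea (G : Net) (c : V → ι) (d : V × Fin 6) (m : ℕ) :
    parea (fp G c d) (2 * m) = ∑ j ∈ Icc 1 m, G.et (edart c d j) := by
  induction m with
  | zero => simp [parea]
  | succ m ih =>
    rw [sum_Icc_succ_top (by omega), ← ih]
    unfold parea
    rw [show 2 * (m + 1) = 2 * m + 1 + 1 by ring, sum_range_succ, sum_range_succ, fp_even,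
      fp_odd, show 2 * m + 1 + 1 = 2 * (m + 1) by ring, fp_even]
    unfold Net.et
    rw [ff_zr]
    unfold Net.zl
    ring

private theorem ff_zero (G : Net) (c : V → ι) (d : V × Fin 6) : fp G c d 0 = G.zl d :=
  fp_even G c d 0

private theorem ff_end (G : Net) (c : V → ι) (d : V × Fin 6) :
    fp G c d (2 * emul c d) = G.zl (es c d) := fp_even G c d (emul c d)

private theorem ff_len (G : Net) (c : V → ι) (d : V × Fin 6) :
    plen (fp G c d) (2 * emul c d) = elen G c d := ff_plen G c d _

private theorem ff_chd (G : Net) (c : V → ι) (d : V × Fin 6) :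
    ‖fp G c d (2 * emul c d) - fp G c d 0‖ = echd G c d := by
  rw [ff_end, ff_zero]
  rfl

private theorem ff_bul (G : Net) (c : V → ι) (d : V × Fin 6) :
    pbul (fp G c d) (2 * emul c d) = A0 * ebul G c d := by
  unfold pbul ebul
  rw [ff_end, ff_zero, ff_parea, mul_div_cancel₀ _ ff_A0.ne']

/-- the permutation of the corners of a class -/
private noncomputable def fs {c : V → ι} {o : ι} {n : ℕ} (h : OutBox c o n) (i : ι) :
    Equiv.Perm {d // d ∈ corners c n i} :=
  Equiv.ofBijective (fun d => ⟨es c d.1, es_mem h d.2⟩)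
    (Finite.injective_iff_bijective.mp fun x y hxy => by
      have h1 : es c x.1 = es c y.1 := congrArg Subtype.val hxy
      exact Subtype.ext (edge_es_inj' h ((mem_corners h i x.1).1 x.2).1
        ((mem_corners h i y.1).1 y.2).1 h1))

private theorem fs_apply {c : V → ι} {o : ι} {n : ℕ} (h : OutBox c o n) (i : ι)
    (d : {d // d ∈ corners c n i}) : (fs h i d).1 = es c d.1 := rfl

private theorem ff_hk {c : V → ι} {o : ι} {n : ℕ} (h : OutBox c o n) (i : ι)
    (d : {d // d ∈ corners c n i}) : 1 ≤ 2 * emul c d.1 := by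
  have := (emul_spec h ((mem_corners h i d.1).1 d.2).1).1
  omega

private theorem ff_hp (G : Net) {c : V → ι} {o : ι} {n : ℕ} (h : OutBox c o n) (i : ι)
    (d : {d // d ∈ corners c n i}) :
    fp G c d.1 (2 * emul c d.1) = fp G c (fs h i d).1 0 := by
  rw [ff_end, ff_zero, fs_apply]

private theorem ff_sub {α : Type} [DecidableEq α] (F R : Finset α) (hR : R ⊆ F) (f : α → ℝ) :
    ∑ e ∈ R.subtype (fun x => x ∈ F), f e.1 = ∑ d ∈ R, f d :=
  sum_subtype_of_mem f fun x hx => hR hx

private theorem ff_sdiff {α : Type} [DecidableEq α] (F R : Finset α) (f : α → ℝ) :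
    ∑ e ∈ (univ : Finset {x // x ∈ F}) \ R.subtype (fun x => x ∈ F), f e.1 =
      ∑ d ∈ F \ R, f d := by
  have h1 : (univ : Finset {x // x ∈ F}) \ R.subtype (fun x => x ∈ F) =
      (F \ R).subtype (fun x => x ∈ F) := by
    ext x
    rw [mem_sdiff, mem_subtype, mem_subtype, mem_sdiff]
    exact ⟨fun hx => ⟨x.2, hx.2⟩, fun hx => ⟨mem_univ _, hx.2⟩⟩
  rw [h1]
  exact ff_sub F (F \ R) sdiff_subset f

private theorem ff_card {α : Type} [DecidableEq α] (F R : Finset α) (hR : R ⊆ F) :
    (R.subtype (fun x => x ∈ F)).card = R.card := by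
  rw [card_subtype, filter_true_of_mem fun x hx => hR hx]

private theorem ff_total (G : Net) {c : V → ι} {o : ι} {n : ℕ} (h : OutBox c o n)
    (hl : NoLoop c) (i : ι) :
    ∑ e : {d // d ∈ corners c n i}, parea (fp G c e.1) (2 * emul c e.1) =
      ∑ d ∈ (darts c n).filter (fun d => c d.1 = i), G.et d := by
  rw [sum_coe_sort (corners c n i) (fun d => parea (fp G c d) (2 * emul c d)),
    ← sum_edges h hl i]
  exact sum_congr rfl fun d _ => ff_parea G c d _

private theorem ff_area (G : Net) {c : V → ι} {o : ι} {n : ℕ} (h : OutBox c o n)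
    (hl : NoLoop c) {i : ι} (hi : i ≠ o) :
    ∑ e : {d // d ∈ corners c n i}, parea (fp G c e.1) (2 * emul c e.1) =
      A0 * ar G c n i := by
  rw [ff_total G h hl, sum_et_class G h hi]
  unfold ar
  rw [mul_div_cancel₀ _ ff_A0.ne']

theorem faceFacts (G : Net) {c : V → ι} {o : ι} {n : ℕ} (h : OutBox c o n)
    (hl : NoLoop c) {i : ι} (hi : i ≠ o) :
    FaceFacts (corners c n i) (ar G c n i) (elen G c) (echd G c) (ebul G c) := by
  have hbulF : ∑ e : {d // d ∈ corners c n i}, pbul (fp G c e.1) (2 * emul c e.1) =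
      A0 * ∑ d ∈ corners c n i, ebul G c d := by
    rw [sum_coe_sort (corners c n i) (fun d => pbul (fp G c d) (2 * emul c d)), mul_sum]
    exact sum_congr rfl fun d _ => ff_bul G c d
  have hbulR : ∀ R, R ⊆ corners c n i →
      ∑ e ∈ R.subtype (fun x => x ∈ corners c n i), pbul (fp G c e.1) (2 * emul c e.1) =
      A0 * ∑ d ∈ R, ebul G c d := by
    intro R hR
    rw [ff_sub (corners c n i) R hR (fun d => pbul (fp G c d) (2 * emul c d)), mul_sum]
    exact sum_congr rfl fun d _ => ff_bul G c d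
  refine ⟨fun e _ => norm_nonneg _, fun e _ => ?_, fun e _ M hM => ?_, fun R hR => ?_,
    fun O hO t ht h3 => ?_, fun h2 => ?_⟩
  · have h1 := chord_le (fp G c e) (2 * emul c e)
    rw [ff_chd, ff_len] at h1
    exact h1
  · have h1 := dido (fp G c e) (2 * emul c e) M hM
    rw [ff_chd, ff_len, ff_bul, abs_mul, abs_of_pos ff_A0] at h1
    exact h1
  · have h1 := iso_reflect (fs h i) (fun d => 2 * emul c d.1) (fun d => fp G c d.1)
      (ff_hk h i) (ff_hp G h i) (R.subtype fun x => x ∈ corners c n i)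
    rw [ff_area G h hl hi, hbulR R hR,
      sum_coe_sort (corners c n i) (fun d => plen (fp G c d) (2 * emul c d)),
      sum_congr rfl fun d _ => ff_len G c d] at h1
    calc 4 * π * (A0 * (ar G c n i - 2 * ∑ e ∈ R, ebul G c e)) =
        4 * π * (A0 * ar G c n i - 2 * (A0 * ∑ d ∈ R, ebul G c d)) := by ring
      _ ≤ _ := h1
  · have h1 := iso_roof (fs h i) (fun d => 2 * emul c d.1) (fun d => fp G c d.1)
      (ff_hk h i) (ff_hp G h i) (O.subtype fun x => x ∈ corners c n i) t ht
      (by rw [Fintype.card_coe, ff_card _ _ hO]; exact h3)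
    rw [ff_area G h hl hi, hbulF, Fintype.card_coe, ff_card _ _ hO,
      ff_sub (corners c n i) O hO (fun d => ‖fp G c d (2 * emul c d) - fp G c d 0‖ ^ 2 * t / 4),
      ff_sub (corners c n i) O hO
        (fun d => ‖fp G c d (2 * emul c d) - fp G c d 0‖ * √(1 + t ^ 2)),
      ff_sdiff (corners c n i) O (fun d => ‖fp G c d (2 * emul c d) - fp G c d 0‖)] at h1
    simp only [ff_chd] at h1
    rw [mul_sub]
    exact h1
  · have h1 := chords_small (fs h i) (fun d => 2 * emul c d.1) (fun d => fp G c d.1)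
      (ff_hk h i) (ff_hp G h i) (by rw [Fintype.card_coe]; exact h2)
    rw [ff_area G h hl hi, hbulF] at h1
    exact mul_left_cancel₀ ff_A0.ne' h1

theorem outer_curve [Fintype ι] (G : Net) {c : V → ι} {o : ι} {n : ℕ} (h : OutBox c o n)
    (hl : NoLoop c) (R : Finset (V × Fin 6)) (hR : R ⊆ corners c n o) :
    4 * π * (A0 * (tot G c o n - ∑ d ∈ R, |ebul G c d|)) ≤
      (∑ d ∈ corners c n o \ R, elen G c d + ∑ d ∈ R, echd G c d) ^ 2 := by
  have h1 := iso_chords (fs h o) (fun d => 2 * emul c d.1) (fun d => fp G c d.1)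
    (ff_hk h o) (ff_hp G h o) (R.subtype fun x => x ∈ corners c n o)
  have h2 : ∑ e : {d // d ∈ corners c n o}, parea (fp G c e.1) (2 * emul c e.1) =
      - (A0 * tot G c o n) := by
    rw [ff_total G h hl, sum_et_outer G h]
    rfl
  rw [h2, ff_sub (corners c n o) R hR (fun d => pbul (fp G c d) (2 * emul c d)),
    ff_sdiff (corners c n o) R (fun d => plen (fp G c d) (2 * emul c d)),
    ff_sub (corners c n o) R hR (fun d => ‖fp G c d (2 * emul c d) - fp G c d 0‖)] at h1
  simp only [ff_chd, ff_len, ff_bul] at h1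
  rw [← mul_sum] at h1
  refine le_trans (mul_le_mul_of_nonneg_left ?_ (by positivity)) h1
  have h3 : - ∑ d ∈ R, ebul G c d ≤ ∑ d ∈ R, |ebul G c d| := by
    rw [← sum_neg_distrib]
    exact sum_le_sum fun d _ => neg_le_abs _
  have h4 := neg_le_abs (-(A0 * tot G c o n) - A0 * ∑ d ∈ R, ebul G c d)
  refine le_trans ?_ h4
  have h5 := mul_le_mul_of_nonneg_left h3 ff_A0.le
  linarith

end Pool.Agent.Helper98.LC
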