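import Pool.Agent.Helper98.LC.C.Merge
import Pool.Agent.Helper98.LC.B.LoopCut
import Pool.Agent.Helper98.LC.B.EdgeRev

/-!
# LC-C03: consequences of minimality

Write `a_i = ar G c n i ≥ 0`, `m(t) = min 1 t`.
* `touch_exists`: a nonempty class `i ≠ o` touches another class: `o` is not empty (outside `box n`), the grid is connected, walk from
  a vertex of class `i` to a vertex outside the box and take the first step which leaves the class.
* `ar_pos`: let `i ≠ o` be nonempty, touching `j`.  `0 ≤ cut` (`cut_nonneg`).  If `j ≠ o`: `0 < 6 (m a_i + m a_j - m (a_i + a_j)) ≤ 6 m a_i`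
  (`m` is monotone), so `a_i > 0`.  If `j = o`: `0 < 6 m a_i + η a_i`, so `a_i ≠ 0`.
* `no_loop`: assume a loop; `loop_cut` gives `W ≠ o`, `W'`, `4 π A0 a_W ≤ cut²`; `4 π A0 = 6 √3 π > 32.6 > 5.7²`, so
  `cut ≥ 5.7 √a_W`.  If `W' ≠ o`: `11.4 √a_W ≤ 2 cut < 6 m(a_W) ≤ 6 √a_W`, impossible.  If `W' = o`: `11.4 √a < 6 m(a) + η a`,
  `η = 5.8/√T`, `a ≤ T` (`a ≤ tot ≤ T`, all `ar ≥ 0`), `T ≥ 4`: `a ≤ 1.15`: `6 m(a) ≤ 6 √a` and `η a ≤ 2.9 a ≤ 2.9 √1.15 √a`:
  impossible.  `a ≥ 1.15`: `η a ≤ 5.8 √a` and `5.6 √a ≥ 6`: impossible.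
* `elen_le_inner`, `elen_le_outer`: `cut_ge` and minimality (`Touch` by the dart `next c d`, `next_corner`),
  `m a_i + m a_j - m (a_i + a_j) ≤ m a_i`.
* `two_le_card`: a nonempty class `i ≠ o` has a cut dart (`touch_exists`), hence a corner dart by `no_loop` (`class_next`); if `d`
  were the only one then `es c d = d`, contradiction to `enb_es_ne`.
* `per_eq`: `sum_edges` for `f = w`, and `∑ j, cut i j` is the sum of `w` over the darts of class `i`.
-/

namespace Pool.Agent.Helper98.LC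

open Finset Real

variable {ι : Type} [DecidableEq ι]

omit [DecidableEq ι] in
private theorem cq_A0_pos : 0 < A0 := by
  unfold A0
  positivity

private theorem cq_ar_nonneg (G : Net) (c : V → ι) (n : ℕ) (i : ι) : 0 ≤ ar G c n i := by
  unfold ar
  refine div_nonneg (sum_nonneg fun x _ => G.area_nonneg x) ?_
  unfold A0
  positivity

private theorem cq_cut_nonneg (G : Net) (c : V → ι) (n : ℕ) (i j : ι) : 0 ≤ cut G c n i j := by
  unfold cut
  exact sum_nonneg fun d _ => w_nonneg G d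

private theorem cq_min {a b : ℝ} (ha : 0 ≤ a) :
    min 1 a + min 1 b - min 1 (a + b) ≤ min 1 a := by
  have : min 1 b ≤ min 1 (a + b) := min_le_min_left 1 (by linarith)
  linarith

private theorem cq_ar_le_tot [Fintype ι] (G : Net) (c : V → ι) {o : ι} (n : ℕ) {i : ι}
    (hi : i ≠ o) : ar G c n i ≤ tot G c o n := by
  unfold tot
  exact single_le_sum (f := fun i => ar G c n i) (fun j _ => cq_ar_nonneg G c n j)
    (mem_filter.2 ⟨mem_univ _, hi⟩)

private theorem cq_const : (32.49 : ℝ) ≤ 4 * π * A0 := by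
  unfold A0
  have h1 : (3.14 : ℝ) < π := Real.pi_gt_d2
  have h2 : (1.73 : ℝ) ≤ √3 := by
    refine Real.le_sqrt_of_sq_le ?_
    norm_num
  nlinarith

private theorem cq_touch {c : V → ι} {o : ι} {n : ℕ} (h : OutBox c o n) {i : ι}
    {d : V × Fin 6} (hd : d ∈ corners c n i) : Touch c i (enb c d) := by
  obtain ⟨h1, h2⟩ := (mem_corners h i d).1 hd
  exact ⟨next c d, isCut_next c h1.1, (class_next c d).trans h2, rfl⟩

private theorem cq_real {a k T : ℝ} (hT : 4 ≤ T) (ha : 0 < a) (haT : a ≤ T) (hk : 0 ≤ k)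
    (h1 : 32.49 * a ≤ k ^ 2) (h2 : 2 * k < 6 * min 1 a + 5.8 / √T * a) : False := by
  set s := √a with hs
  have hs0 : 0 < s := Real.sqrt_pos.2 ha
  have hs2 : s ^ 2 = a := Real.sq_sqrt ha.le
  have hks : 5.7 * s ≤ k := by
    refine le_of_sq_le_sq ?_ hk
    nlinarith
  have hm : min 1 a ≤ s := by
    rcases le_total 1 a with h | h
    · refine (min_le_left _ _).trans ?_
      rw [hs]
      exact Real.one_le_sqrt.2 h
    · refine (min_le_right _ _).trans ?_
      have : s ≤ 1 := by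
        rw [hs]
        exact Real.sqrt_le_one.2 h
      nlinarith
  have hT0 : 0 < √T := Real.sqrt_pos.2 (by linarith)
  have hT2 : 2 ≤ √T := by
    refine Real.le_sqrt_of_sq_le ?_
    linarith
  rcases le_total a 1.15 with h3 | h3
  · have h4 : 5.8 / √T * a ≤ 2.9 * a := by
      refine mul_le_mul_of_nonneg_right ?_ ha.le
      rw [div_le_iff₀ hT0]
      linarith
    have h5 : s ≤ 1.08 := by
      by_contra h6
      push Not at h6
      nlinarith
    nlinarith
  · have h4 : 5.8 / √T * a ≤ 5.8 * s := by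
      have h5 : s ≤ √T := Real.sqrt_le_sqrt haT
      rw [div_mul_eq_mul_div, div_le_iff₀ hT0]
      nlinarith
    have h5 : min 1 a ≤ 1 := min_le_left _ _
    have h6 : 5.6 * s < 6 := by linarith
    nlinarith

theorem touch_exists {c : V → ι} {o : ι} {n : ℕ} (h : OutBox c o n) {i : ι} (hi : i ≠ o)
    (hx : ∃ x, c x = i) : ∃ j, j ≠ i ∧ Touch c i j := by
  classical
  obtain ⟨x, hx⟩ := hx
  have hex : ∃ t : ℕ, c (x.1 + t, x.2) ≠ i := by
    refine ⟨(n : ℤ).toNat + x.1.natAbs + 1, ?_⟩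
    rw [h _ ?_]
    · exact fun e => hi e.symm
    · unfold box
      rw [mem_product, mem_Icc, mem_Icc]
      rintro ⟨⟨_, h2⟩, _⟩
      have h3 : (((n : ℤ).toNat + x.1.natAbs + 1 : ℕ) : ℤ) = n + |x.1| + 1 := by
        push_cast
        simp
      rw [h3] at h2
      have h4 : -|x.1| ≤ x.1 := neg_abs_le _
      simp only at h2
      omega
  have ht := Nat.find_spec hex
  have hmin := fun m hm => Nat.find_min hex (m := m) hm
  set t := Nat.find hex with htd
  have ht0 : t ≠ 0 := by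
    intro h0
    rw [h0] at ht
    apply ht
    rw [← hx]
    congr 1
    ext <;> simp
  obtain ⟨s, hs⟩ := Nat.exists_eq_succ_of_ne_zero ht0
  have h1 : c (x.1 + s, x.2) = i := by
    by_contra h2
    exact hmin s (by omega) h2
  have h2 : tip (((x.1 + s, x.2), 0) : V × Fin 6) = (x.1 + t, x.2) := by
    unfold tip
    have h3 : dir 0 = (1, 0) := rfl
    rw [hs]
    change ((x.1 + s, x.2) : V) + dir 0 = _
    rw [h3]
    ext
    · push_cast
      simp only [Prod.fst_add]
      ring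
    · simp
  refine ⟨c (x.1 + t, x.2), ht, ((x.1 + s, x.2), 0), ?_, h1, ?_⟩
  · unfold IsCut
    rw [h2]
    change c (x.1 + s, x.2) ≠ _
    rw [h1]
    exact fun e => ht e.symm
  · rw [h2]

theorem ar_pos [Fintype ι] {G : Net} {c : V → ι} {o : ι} {n : ℕ} {η : ℝ}
    (h : Minimal G c o n η) {i : ι} (hi : i ≠ o) (hx : ∃ x, c x = i) : 0 < ar G c n i := by
  obtain ⟨j, hj, ht⟩ := touch_exists h.out hi hx
  have h1 := cq_cut_nonneg G c n i j
  have h2 := cq_ar_nonneg G c n i
  by_contra h3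
  have h4 : ar G c n i = 0 := le_antisymm (not_lt.1 h3) h2
  by_cases hjo : j = o
  · rw [hjo] at ht h1
    have h5 := h.outer i hi ht
    rw [h4, mul_zero, min_eq_right (by norm_num : (0 : ℝ) ≤ 1)] at h5
    linarith
  · have h5 := h.inner i j hi hjo ht
    have h6 := cq_min (b := ar G c n j) h2
    have h7 : min 1 (ar G c n i) = 0 := by
      rw [h4]
      exact min_eq_right (by norm_num)
    linarith

theorem no_loop [Fintype ι] {G : Net} {c : V → ι} {o : ι} {n : ℕ} {T : ℝ} (hT : 4 ≤ T)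
    (h : Minimal G c o n (5.8 / √T)) (htot : tot G c o n ≤ T) : NoLoop c := by
  by_contra hl
  obtain ⟨W, W', hWo, hWW', ht, hb⟩ := loop_cut G h.out h.conn hl
  have ht' : Touch c W W' := ht
  obtain ⟨d, _, hdW, _⟩ := ht
  have ha : 0 < ar G c n W := ar_pos h hWo ⟨d.1, hdW⟩
  have haT : ar G c n W ≤ T := (cq_ar_le_tot G c n hWo).trans htot
  have hk := cq_cut_nonneg G c n W W'
  have hk2 : 32.49 * ar G c n W ≤ (cut G c n W W') ^ 2 := by
    refine le_trans ?_ hb
    have := mul_le_mul_of_nonneg_right cq_const ha.le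
    linarith
  have hη : 0 ≤ 5.8 / √T * ar G c n W := by positivity
  refine cq_real hT ha haT hk hk2 ?_
  by_cases hWo' : W' = o
  · rw [hWo'] at ht' ⊢
    exact h.outer W hWo ht'
  · have h5 := h.inner W W' hWo hWo' ht'
    have h6 := cq_min (b := ar G c n W') ha.le
    linarith

theorem elen_le_inner [Fintype ι] {G : Net} {c : V → ι} {o : ι} {n : ℕ} {η : ℝ}
    (h : Minimal G c o n η) {i : ι} (hi : i ≠ o) {d : V × Fin 6} (hd : d ∈ corners c n i)
    (hnb : enb c d ≠ o) : elen G c d ≤ 3 * min 1 (ar G c n i) := by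
  have hd' := (mem_corners h.out i d).1 hd
  have h1 := cut_ge G h.out hd'.1
  rw [hd'.2] at h1
  have h2 := h.inner i _ hi hnb (cq_touch h.out hd)
  have h3 := cq_min (b := ar G c n (enb c d)) (cq_ar_nonneg G c n i)
  linarith

theorem elen_le_outer [Fintype ι] {G : Net} {c : V → ι} {o : ι} {n : ℕ} {η : ℝ}
    (h : Minimal G c o n η) {i : ι} (hi : i ≠ o) {d : V × Fin 6} (hd : d ∈ corners c n i)
    (hnb : enb c d = o) : elen G c d ≤ 3 * min 1 (ar G c n i) + η * ar G c n i / 2 := by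
  have hd' := (mem_corners h.out i d).1 hd
  have h1 := cut_ge G h.out hd'.1
  have ht := cq_touch h.out hd
  rw [hd'.2, hnb] at h1
  rw [hnb] at ht
  have h2 := h.outer i hi ht
  linarith

theorem two_le_card [Fintype ι] {G : Net} {c : V → ι} {o : ι} {n : ℕ} {T : ℝ} (hT : 4 ≤ T)
    (h : Minimal G c o n (5.8 / √T)) (htot : tot G c o n ≤ T) {i : ι} (hi : i ≠ o)
    (hx : ∃ x, c x = i) : 2 ≤ (corners c n i).card := by
  have hl := no_loop hT h htot
  obtain ⟨j, _, d0, hd0, hdi, _⟩ := touch_exists h.out hi hx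
  obtain ⟨m, hm⟩ := hl d0 hd0
  have h1 : (next c)^[m] d0 ∈ corners c n i := by
    rw [mem_corners h.out]
    exact ⟨hm, (edart_class c d0 m).trans hdi⟩
  refine Finset.one_lt_card.2 ⟨_, h1, _, es_mem h.out h1, fun e => ?_⟩
  have h2 := enb_es_ne h.out hm
  rw [← e] at h2
  exact h2 rfl

theorem per_eq [Fintype ι] (G : Net) {c : V → ι} {o : ι} {n : ℕ} (h : OutBox c o n)
    (hl : NoLoop c) (i : ι) : ∑ j, cut G c n i j = ∑ d ∈ corners c n i, elen G c d := by
  have h1 : ∑ j, cut G c n i j = ∑ d ∈ (darts c n).filter (fun d => c d.1 = i), G.w d := by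
    unfold cut
    rw [← sum_fiberwise ((darts c n).filter fun d => c d.1 = i) (fun d => c (tip d))]
    refine sum_congr rfl fun j _ => ?_
    rw [filter_filter]
  rw [h1]
  exact (sum_edges h hl i G.w).symm

end Pool.Agent.Helper98.LC
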