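import Pool.Agent.Helper98.LC.B.Area
import Pool.Agent.Helper98.LC.DefsC

/-!
# LC-C01: merging two classes

* `merge_out`: outside `box n` we have `c x = o ≠ j`.
* `merge_conn`: let `x, y` be in the same class of `merge c i j`.  If it is not `i`: the class is a class of `c` (other than `i, j`)
  and a path of `Adj1 c` is a path of `Adj1 (merge c i j)`.  If it is `i`: every point is in the class `i` or `j` of `c`; inside each
  of them use `Conn c`; the dart `d` of `Touch c i j` connects the two (both directions, `Adj1` is symmetric, `dir_add3`).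
* `per2_merge`: `darts (merge c i j) n` = `darts c n` without the darts between `i` and `j` (both directions);
  `cut_symm`.
* areas: the class `i` of `merge c i j` is the disjoint union of the classes `i` and `j` of `c`.
* `classes_merge`: the number of nonempty classes in the range decreases: `j` is no longer a value (`i ≠ j`), and all values of
  `merge c i j` are values of `c` (`i` is a value by `Touch`).
-/

namespace Pool.Agent.Helper98.LC

open Finset

variable {ι : Type} [DecidableEq ι]

omit [DecidableEq ι] in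
private lemma merge_adj_symm (c : V → ι) {x y : V} (h : Adj1 c x y) : Adj1 c y x := by
  obtain ⟨h, k, hk⟩ := h
  refine ⟨h.symm, k + 3, ?_⟩
  rw [hk, dir_add3, add_assoc, add_neg_cancel, add_zero]

omit [DecidableEq ι] in
private lemma merge_path_symm (c : V → ι) {x y : V} (h : Relation.ReflTransGen (Adj1 c) x y) :
    Relation.ReflTransGen (Adj1 c) y x := by
  induction h with
  | refl => exact Relation.ReflTransGen.refl
  | tail _ h2 ih => exact Relation.ReflTransGen.head (merge_adj_symm c h2) ih

private lemma merge_congr {c : V → ι} (i j : ι) {x y : V} (h : c x = c y) :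
    merge c i j x = merge c i j y := by
  unfold merge
  rw [h]

private lemma merge_path {c : V → ι} (i j : ι) {x y : V} (h : Relation.ReflTransGen (Adj1 c) x y) :
    Relation.ReflTransGen (Adj1 (merge c i j)) x y := by
  induction h with
  | refl => exact Relation.ReflTransGen.refl
  | tail _ h2 ih => exact ih.tail ⟨merge_congr i j h2.1, h2.2⟩

private lemma merge_ij {c : V → ι} (hc : Conn c) {i j : ι} (ht : Touch c i j) {x y : V}
    (hx : c x = i) (hy : c y = j) : Relation.ReflTransGen (Adj1 (merge c i j)) x y := by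
  obtain ⟨d, _, h1, h2⟩ := ht
  have p1 := merge_path i j (hc x d.1 (hx.trans h1.symm))
  have p2 := merge_path i j (hc (tip d) y (h2.trans hy.symm))
  have p3 : Adj1 (merge c i j) d.1 (tip d) := by
    refine ⟨?_, d.2, rfl⟩
    unfold merge
    rw [h1, h2, if_pos rfl]
    split_ifs with h <;> rfl
  exact (p1.tail p3).trans p2

private lemma merge_ne_iff (c : V → ι) (i j : ι) (d : V × Fin 6) :
    merge c i j d.1 ≠ merge c i j (tip d) ↔
      c d.1 ≠ c (tip d) ∧ ¬ ((c d.1 = i ∧ c (tip d) = j) ∨ (c d.1 = j ∧ c (tip d) = i)) := by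
  unfold merge
  by_cases h1 : c d.1 = j <;> by_cases h2 : c (tip d) = j
  · rw [if_pos h1, if_pos h2, h1, h2]
    simp
  · rw [if_pos h1, if_neg h2]
    constructor
    · intro h
      refine ⟨fun e => h2 (e.symm.trans h1), ?_⟩
      rintro (⟨_, h3⟩ | ⟨_, h3⟩)
      · exact h2 h3
      · exact h h3.symm
    · rintro ⟨_, h⟩ e
      exact h (Or.inr ⟨h1, e.symm⟩)
  · rw [if_neg h1, if_pos h2]
    constructor
    · intro h
      refine ⟨fun e => h1 (e.trans h2), ?_⟩
      rintro (⟨h3, _⟩ | ⟨h3, _⟩)
      · exact h h3
      · exact h1 h3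
    · rintro ⟨_, h⟩ e
      exact h (Or.inl ⟨e, h2⟩)
  · rw [if_neg h1, if_neg h2]
    constructor
    · intro h
      refine ⟨h, ?_⟩
      rintro (⟨_, h3⟩ | ⟨h3, _⟩)
      · exact h2 h3
      · exact h1 h3
    · exact fun h => h.1

theorem merge_out {c : V → ι} {o : ι} {n : ℕ} (h : OutBox c o n) {i j : ι} (hj : j ≠ o) :
    OutBox (merge c i j) o n := by
  intro x hx
  unfold merge
  rw [h x hx, if_neg (fun e => hj e.symm)]

theorem merge_conn {c : V → ι} (hc : Conn c) {i j : ι} (hij : i ≠ j) (ht : Touch c i j) :
    Conn (merge c i j) := by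
  intro x y hxy
  by_cases h : c x = c y
  · exact merge_path i j (hc x y h)
  unfold merge at hxy
  by_cases h1 : c x = j <;> by_cases h2 : c y = j
  · exact absurd (h1.trans h2.symm) h
  · rw [if_pos h1, if_neg h2] at hxy
    exact merge_path_symm _ (merge_ij hc ht hxy.symm h1)
  · rw [if_neg h1, if_pos h2] at hxy
    exact merge_ij hc ht hxy h2
  · rw [if_neg h1, if_neg h2] at hxy
    exact absurd hxy h

theorem per2_merge (G : Net) {c : V → ι} {o : ι} {n : ℕ} (h : OutBox c o n) {i j : ι}
    (hij : i ≠ j) (hj : j ≠ o) :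
    per2 G (merge c i j) n = per2 G c n - 2 * cut G c n i j := by
  have h1 : darts (merge c i j) n = (darts c n).filter fun d =>
      ¬ ((c d.1 = i ∧ c (tip d) = j) ∨ (c d.1 = j ∧ c (tip d) = i)) := by
    unfold darts
    rw [filter_filter]
    exact filter_congr fun d _ => merge_ne_iff c i j d
  have h2 : ∑ d ∈ (darts c n).filter (fun d =>
      (c d.1 = i ∧ c (tip d) = j) ∨ (c d.1 = j ∧ c (tip d) = i)), G.w d =
      cut G c n i j + cut G c n j i := by
    rw [filter_or, sum_union]
    · rfl
    · rw [disjoint_left]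
      intro d hd hd'
      rw [mem_filter] at hd hd'
      exact hij (hd.2.1.symm.trans hd'.2.1)
  have h3 := sum_filter_add_sum_filter_not (darts c n) (fun d =>
      (c d.1 = i ∧ c (tip d) = j) ∨ (c d.1 = j ∧ c (tip d) = i)) (fun d => G.w d)
  rw [h2, cut_symm G h j i] at h3
  unfold per2
  rw [h1]
  linarith

theorem ar_merge_left (G : Net) (c : V → ι) (n : ℕ) {i j : ι} (hij : i ≠ j) :
    ar G (merge c i j) n i = ar G c n i + ar G c n j := by
  unfold ar
  rw [← add_div, ← sum_union]
  · rw [← filter_or]
    congr 2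
    refine filter_congr fun x _ => ?_
    unfold merge
    split_ifs with h
    · exact ⟨fun _ => Or.inr h, fun _ => rfl⟩
    · exact ⟨fun e => Or.inl e, fun e => e.resolve_right h⟩
  · rw [disjoint_left]
    intro x hx hx'
    rw [mem_filter] at hx hx'
    exact hij (hx.2.symm.trans hx'.2)

theorem ar_merge_right (G : Net) (c : V → ι) (n : ℕ) {i j : ι} (hij : i ≠ j) :
    ar G (merge c i j) n j = 0 := by
  unfold ar
  rw [filter_false_of_mem, sum_empty, zero_div]
  intro x _ hx
  unfold merge at hx
  split_ifs at hx with h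
  · exact hij hx
  · exact h hx

theorem ar_merge_other (G : Net) (c : V → ι) (n : ℕ) {i j k : ι} (hi : k ≠ i) (hj : k ≠ j) :
    ar G (merge c i j) n k = ar G c n k := by
  unfold ar
  congr 2
  refine filter_congr fun x _ => ?_
  unfold merge
  split_ifs with h
  · exact ⟨fun e => absurd e.symm hi, fun e => absurd (e.symm.trans h) hj⟩
  · exact Iff.rfl

open Classical in
theorem classes_merge [Fintype ι] {c : V → ι} {i j : ι} (hij : i ≠ j) (ht : Touch c i j) :
    (univ.filter fun k => ∃ x, merge c i j x = k).card < (univ.filter fun k => ∃ x, c x = k).card := by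
  obtain ⟨d, _, h1, h2⟩ := ht
  apply card_lt_card
  rw [ssubset_iff_of_subset]
  · refine ⟨j, ?_, ?_⟩
    · rw [mem_filter]
      exact ⟨mem_univ _, tip d, h2⟩
    · rw [mem_filter]
      rintro ⟨_, x, hx⟩
      unfold merge at hx
      split_ifs at hx with h
      · exact hij hx
      · exact h hx
  · intro k hk
    rw [mem_filter] at hk ⊢
    obtain ⟨_, x, hx⟩ := hk
    refine ⟨mem_univ _, ?_⟩
    unfold merge at hx
    split_ifs at hx with h
    · exact ⟨d.1, h1.trans hx⟩
    · exact ⟨x, hx⟩

end Pool.Agent.Helper98.LC
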