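import Pool.Agent.Helper98.LC.C.Merge

/-!
# LC-C02: existence of a minimal labelling

The set of the labellings `c` with `OutBox c o n` is finite (a labelling is determined by its restriction to the finite set `box n`, and
`ι` is finite).  Let `c` minimise `Phi G c o n η` among the labellings with `OutBox c o n`, `Conn c`, `tot c ≤ tot c₀`, and
among the minimisers let the number of nonempty classes `card {k | ∃ x, c x = k}` be minimal.
Let `i, j` be classes with `Touch c i j` (so `i ≠ j`), `j ≠ o`.  `c' = merge c i j` is admissible (`merge_out`, `merge_conn`;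
`tot c' ≤ tot c`: equal if `i ≠ o`, and `tot c - ar j` if `i = o`, with `ar ≥ 0`, `ar_nonneg`) and has fewer classes
(`classes_merge`), so `Phi c' > Phi c`.  By `per2_merge`, `ar_merge_left`, `ar_merge_right`, `ar_merge_other`:
if `i ≠ o`: `Phi c' - Phi c = - 2 cut i j + 6 (min 1 a_i + min 1 a_j - min 1 (a_i + a_j))`;
if `i = o`: `Phi c' - Phi c = - 2 cut o j + 6 min 1 a_j + η a_j`, `cut_symm`.
-/

namespace Pool.Agent.Helper98.LC

open Finset

variable {ι : Type} [DecidableEq ι]

open Classical in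
private noncomputable def ncl [Fintype ι] (c : V → ι) : ℕ := (univ.filter fun k => ∃ x, c x = k).card

private lemma min_finite [Fintype ι] (o : ι) (n : ℕ) : {c : V → ι | OutBox c o n}.Finite := by
  classical
  have hi : Set.InjOn (fun (c : V → ι) => fun (x : box n) => c x) {c : V → ι | OutBox c o n} := by
    intro c hc c' hc' h
    funext x
    by_cases hx : x ∈ box n
    · exact congrFun h ⟨x, hx⟩
    · rw [hc x hx, hc' x hx]
  exact Set.Finite.of_finite_image (Set.toFinite _) hi

private lemma min_touch_symm {c : V → ι} {i j : ι} (h : Touch c i j) : Touch c j i := by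
  obtain ⟨d, h0, h1, h2⟩ := h
  exact ⟨rev d, (isCut_rev c d).mpr h0, h2, by rw [tip_rev]; exact h1⟩

private lemma min_sum_inner [Fintype ι] (G : Net) (c : V → ι) (o : ι) (n : ℕ) {i j : ι}
    (hij : i ≠ j) (hi : i ≠ o) (hj : j ≠ o) (f : ℝ → ℝ) :
    ∑ k ∈ univ.filter (fun k => k ≠ o), f (ar G (merge c i j) n k) =
      ∑ k ∈ univ.filter (fun k => k ≠ o), f (ar G c n k) + f (ar G c n i + ar G c n j) + f 0
        - f (ar G c n i) - f (ar G c n j) := by
  have hmi : i ∈ univ.filter (fun k => k ≠ o) := by simp [hi]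
  have hmj : j ∈ (univ.filter (fun k => k ≠ o)).erase i := by simp [hj, hij.symm]
  rw [← add_sum_erase _ _ hmi, ← add_sum_erase _ _ hmj, ← add_sum_erase _ (fun k => f (ar G c n k)) hmi,
    ← add_sum_erase _ (fun k => f (ar G c n k)) hmj, ar_merge_left G c n hij, ar_merge_right G c n hij]
  have h1 : ∑ k ∈ ((univ.filter (fun k => k ≠ o)).erase i).erase j, f (ar G (merge c i j) n k) =
      ∑ k ∈ ((univ.filter (fun k => k ≠ o)).erase i).erase j, f (ar G c n k) := by
    refine sum_congr rfl fun k hk => ?_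
    rw [mem_erase, mem_erase] at hk
    rw [ar_merge_other G c n hk.2.1 hk.1]
  rw [h1]
  ring

private lemma min_sum_outer [Fintype ι] (G : Net) (c : V → ι) (o : ι) (n : ℕ) {i : ι}
    (hi : i ≠ o) (f : ℝ → ℝ) :
    ∑ k ∈ univ.filter (fun k => k ≠ o), f (ar G (merge c o i) n k) =
      ∑ k ∈ univ.filter (fun k => k ≠ o), f (ar G c n k) + f 0 - f (ar G c n i) := by
  have hmi : i ∈ univ.filter (fun k => k ≠ o) := by simp [hi]
  rw [← add_sum_erase _ _ hmi, ← add_sum_erase _ (fun k => f (ar G c n k)) hmi,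
    ar_merge_right G c n hi.symm]
  have h1 : ∑ k ∈ (univ.filter (fun k => k ≠ o)).erase i, f (ar G (merge c o i) n k) =
      ∑ k ∈ (univ.filter (fun k => k ≠ o)).erase i, f (ar G c n k) := by
    refine sum_congr rfl fun k hk => ?_
    rw [mem_erase, mem_filter] at hk
    rw [ar_merge_other G c n hk.2.2 hk.1]
  rw [h1]
  ring

theorem exists_minimal [Fintype ι] (G : Net) {c₀ : V → ι} {o : ι} {n : ℕ} (h : OutBox c₀ o n)
    (hc : Conn c₀) (η : ℝ) :
    ∃ c : V → ι, Minimal G c o n η ∧ Phi G c o n η ≤ Phi G c₀ o n η ∧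
      tot G c o n ≤ tot G c₀ o n := by
  have hf : {c : V → ι | OutBox c o n ∧ Conn c ∧ tot G c o n ≤ tot G c₀ o n}.Finite :=
    (min_finite o n).subset fun c hc => hc.1
  obtain ⟨c₁, hc₁, hm₁⟩ := Set.exists_min_image _ (fun c => Phi G c o n η) hf ⟨c₀, h, hc, le_rfl⟩
  have hf2 : {c : V → ι | (OutBox c o n ∧ Conn c ∧ tot G c o n ≤ tot G c₀ o n) ∧
      Phi G c o n η = Phi G c₁ o n η}.Finite := hf.subset fun c hc => hc.1
  obtain ⟨c, hcS, hm⟩ := Set.exists_min_image _ (fun c => ncl c) hf2 ⟨c₁, hc₁, rfl⟩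
  obtain ⟨⟨hout, hconn, htot⟩, hphi⟩ := hcS
  have key : ∀ c' : V → ι, OutBox c' o n → Conn c' → tot G c' o n ≤ tot G c o n →
      ncl c' < ncl c → Phi G c o n η < Phi G c' o n η := by
    intro c' h1 h2 h3 h4
    have h5 : Phi G c₁ o n η ≤ Phi G c' o n η := hm₁ c' ⟨h1, h2, h3.trans htot⟩
    rw [hphi]
    refine lt_of_le_of_ne h5 fun h6 => ?_
    have h7 := hm c' ⟨⟨h1, h2, h3.trans htot⟩, h6.symm⟩
    exact absurd h4 (not_lt.mpr h7)
  refine ⟨c, ⟨hout, hconn, ?_, ?_⟩, ?_, htot⟩
  · intro i j hi hj ht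
    have hij : i ≠ j := by
      obtain ⟨d, h0, h1, h2⟩ := ht
      intro e
      exact h0 (h1.trans (e.trans h2.symm))
    have ht' : tot G (merge c i j) o n = tot G c o n := by
      have := min_sum_inner G c o n hij hi hj (fun a => a)
      unfold tot
      rw [this]
      ring
    have h1 := key (merge c i j) (merge_out hout hj) (merge_conn hconn hij ht) ht'.le
      (classes_merge hij ht)
    unfold Phi at h1
    rw [per2_merge G hout hij hj, min_sum_inner G c o n hij hi hj (fun a => 6 * min 1 a + η * a)] at h1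
    have h0 : min (1 : ℝ) 0 = 0 := min_eq_right zero_le_one
    rw [h0] at h1
    linarith
  · intro i hi ht
    have ht2 := min_touch_symm ht
    have ht' : tot G (merge c o i) o n ≤ tot G c o n := by
      have := min_sum_outer G c o n hi (fun a => a)
      unfold tot
      rw [this]
      have := ar_nonneg G c n i
      linarith
    have h1 := key (merge c o i) (merge_out hout hi) (merge_conn hconn hi.symm ht2) ht'
      (classes_merge hi.symm ht2)
    unfold Phi at h1
    rw [per2_merge G hout hi.symm hi, min_sum_outer G c o n hi (fun a => 6 * min 1 a + η * a),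
      cut_symm G hout o i] at h1
    have h0 : min (1 : ℝ) 0 = 0 := min_eq_right zero_le_one
    rw [h0] at h1
    linarith
  · rw [hphi]
    exact hm₁ c₀ ⟨h, hc, le_rfl⟩

end Pool.Agent.Helper98.LC
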