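import Pool.Agent.Helper98.LC.C.Conseq

/-!
# LC-C06: no loops, general `η`

Same proof as `no_loop` in `C/Conseq.lean`: `loop_cut` gives `W ≠ o`, `W'`, `4 π A0 a_W ≤ cut²`, so `cut ≥ 5.7 √a_W`.
`W' ≠ o`: `11.4 √a ≤ 2 cut < 6 min 1 a ≤ 6 √a`, impossible (`a = a_W ≥ 0`).
`W' = o`: `11.4 √a < 6 min 1 a + η a`, `0 ≤ a ≤ T` (`a ≤ tot`, all areas are `≥ 0`), `√a ≤ √T`.
`a ≤ 1`: right side `≤ 6.1 √a` (`a ≤ √a`).  `1 ≤ a ≤ 25`: `η a ≤ a / 10 ≤ √a / 2`, right side `≤ 6.5 √a`.  `a ≥ 25`: `η a ≤ η √T √a ≤ 6 √a`, `6 ≤ 1.2 √a`.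
`two_le_card'`: as `two_le_card`.
-/

namespace Pool.Agent.Helper98.LC

open Finset Real

variable {ι : Type} [DecidableEq ι]

private theorem nl2_ar_nonneg (G : Net) (c : V → ι) (n : ℕ) (i : ι) :
    0 ≤ ar G c n i := by
  unfold ar
  refine div_nonneg (sum_nonneg fun x _ => G.area_nonneg x) ?_
  unfold A0
  positivity

private theorem nl2_ar_le_tot [Fintype ι] (G : Net) (c : V → ι) {o : ι} (n : ℕ) {i : ι}
    (hi : i ≠ o) : ar G c n i ≤ tot G c o n := by
  unfold tot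
  exact single_le_sum (f := fun i => ar G c n i) (fun j _ => nl2_ar_nonneg G c n j)
    (mem_filter.2 ⟨mem_univ _, hi⟩)

private theorem nl2_const : (32.49 : ℝ) ≤ 4 * π * A0 := by
  unfold A0
  have h1 : (3.14 : ℝ) < π := Real.pi_gt_d2
  have h2 : (1.73 : ℝ) ≤ √3 := by
    refine Real.le_sqrt_of_sq_le ?_
    norm_num
  nlinarith

private theorem nl2_real {a k T η : ℝ} (hη : 0 ≤ η) (hη1 : η ≤ 1 / 10) (hη2 : η * √T ≤ 6)
    (ha : 0 ≤ a) (haT : a ≤ T) (hk : 0 ≤ k) (h1 : 32.49 * a ≤ k ^ 2)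
    (h2 : 2 * k < 6 * min 1 a + η * a) : False := by
  set s := √a with hs
  have hs0 : 0 ≤ s := Real.sqrt_nonneg a
  have hs2 : s ^ 2 = a := Real.sq_sqrt ha
  have hks : 5.7 * s ≤ k := by
    refine le_of_sq_le_sq ?_ hk
    nlinarith
  rcases le_total a 1 with h3 | h3
  · have h4 : s ≤ 1 := by
      rw [hs]
      exact Real.sqrt_le_one.2 h3
    have h5 : a ≤ s := by nlinarith
    have h6 : min 1 a ≤ a := min_le_right _ _
    have h7 : η * a ≤ 1 / 10 * a := mul_le_mul_of_nonneg_right hη1 ha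
    linarith
  · have h4 : 1 ≤ s := by
      rw [hs]
      exact Real.one_le_sqrt.2 h3
    have h6 : min 1 a ≤ 1 := min_le_left _ _
    rcases le_total s 5 with h8 | h8
    · have h7 : η * a ≤ 1 / 10 * a := mul_le_mul_of_nonneg_right hη1 ha
      have h9 : a ≤ 5 * s := by nlinarith
      linarith
    · have h9 : s ≤ √T := Real.sqrt_le_sqrt haT
      have h10 : η * s ≤ 6 := (mul_le_mul_of_nonneg_left h9 hη).trans hη2
      have h11 : η * a ≤ 6 * s := by
        rw [← hs2, pow_two, ← mul_assoc]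
        exact mul_le_mul_of_nonneg_right h10 hs0
      linarith

theorem no_loop' [Fintype ι] {G : Net} {c : V → ι} {o : ι} {n : ℕ} {η T : ℝ} (hη : 0 ≤ η)
    (hη1 : η ≤ 1 / 10) (hη2 : η * √T ≤ 6) (h : Minimal G c o n η) (htot : tot G c o n ≤ T) :
    NoLoop c := by
  by_contra hl
  obtain ⟨W, W', hWo, hWW', ht, hb⟩ := loop_cut G h.out h.conn hl
  have ht' : Touch c W W' := ht
  have ha : 0 ≤ ar G c n W := nl2_ar_nonneg G c n W
  have haT : ar G c n W ≤ T := (nl2_ar_le_tot G c n hWo).trans htot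
  have hk : 0 ≤ cut G c n W W' := by
    unfold cut
    exact sum_nonneg fun d _ => w_nonneg G d
  have hk2 : 32.49 * ar G c n W ≤ (cut G c n W W') ^ 2 := by
    refine le_trans ?_ hb
    have := mul_le_mul_of_nonneg_right nl2_const ha
    linarith
  have hηa : 0 ≤ η * ar G c n W := mul_nonneg hη ha
  refine nl2_real hη hη1 hη2 ha haT hk hk2 ?_
  by_cases hWo' : W' = o
  · rw [hWo'] at ht' ⊢
    exact h.outer W hWo ht'
  · have h5 := h.inner W W' hWo hWo' ht'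
    have h6 : min 1 (ar G c n W') ≤ min 1 (ar G c n W + ar G c n W') :=
      min_le_min_left 1 (by linarith)
    linarith

theorem two_le_card' {c : V → ι} {o : ι} {n : ℕ} (h : OutBox c o n) (hl : NoLoop c) {i : ι}
    (hi : i ≠ o) (hx : ∃ x, c x = i) : 2 ≤ (corners c n i).card := by
  obtain ⟨j, _, d0, hd0, hdi, _⟩ := touch_exists h hi hx
  obtain ⟨m, hm⟩ := hl d0 hd0
  have h1 : (next c)^[m] d0 ∈ corners c n i := by
    rw [mem_corners h]
    exact ⟨hm, (edart_class c d0 m).trans hdi⟩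
  refine Finset.one_lt_card.2 ⟨_, h1, _, es_mem h h1, fun e => ?_⟩
  have h2 := enb_es_ne h hm
  rw [← e] at h2
  exact h2 rfl

end Pool.Agent.Helper98.LC
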